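import Pool.Agent.H35.G4.Dis3
import Pool.Agent.H67.G4.Ctx

/-!
# No minimal counterexample, from the path contraction rows of the donors
-/

set_option autoImplicit false

namespace Pool.Agent.H35.G4

open Relation Pool.Agent.H13.DA Pool.Agent.H72.G4 Pool.Agent.H96.G4 Pool.Agent.H13.G4
open CT

/-- the path contraction rows for the words of `PCL` -/
def Rows (V : Type*) [DecidableEq V] : Prop :=
  ∀ (T X : Finset (V × V × V)) (D : V → V → Prop) (a b c : V) (Z : List V),
    MCw T D a b c → Ts T D a b c → Ctx T X D a b c Z →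
    ∀ u, In X D Z u → ∀ (n : ℕ) (x : Fin (n + 1) → V) (w : Fin (n + 1) → CT),
      Rot T D u n x w → List.ofFn w ∈ PCL → PCok T X D Z u x 0

theorem no_mcw_of_rows {V : Type*} [DecidableEq V] [Infinite V] (hr : Rows V)
    {T : Finset (V × V × V)} {D : V → V → Prop} {a b c : V} (hM : MCw T D a b c)
    (hT : Ts T D a b c) : False := by
  obtain ⟨X, Z, hC⟩ := Pool.Agent.H67.G4.exists_ctx Pool.Agent.H13.G4.fanT hM hT
  exact discharge3 hM hT hC (hr T X D a b c Z hM hT hC)

end Pool.Agent.H35.G4
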