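import Pool.Agent.H35.G4.DisH
import Pool.Agent.H96.G4.Dc
import Pool.Agent.H13.G4.Bdi
import Pool.Agent.H80.G4.RedW

/-!
# Discharging: the contradiction, from the path contraction rows
-/

set_option autoImplicit false

namespace Pool.Agent.H35.G4

open Relation Pool.Agent.H13.DA Pool.Agent.H72.G4 Pool.Agent.H96.G4 Pool.Agent.H13.G4
open Pool.Agent.H32.G4
open CT

variable {V : Type*} [DecidableEq V] {T X : Finset (V × V × V)} {D : V → V → Prop} {a b c : V}
variable {Z : List V}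

open Classical in
theorem mem_akp {p : V × V} : p ∈ akp T X D Z ↔ (In X D Z p.1 ∧ p.2 ∈ verts T) ∧
    Akr T D p.1 p.2 := by
  unfold akp
  rw [Finset.mem_filter, Finset.mem_product, mem_inn]

/-- **The discharging**: the path contraction rows give the contradiction (donor side and requests
as hypotheses). -/
theorem discharge' [Infinite V] (hM : MCw T D a b c) (hT : Ts T D a b c)
    (hC : Ctx T X D a b c Z)
    (hPC : ∀ u, In X D Z u → ∀ (n : ℕ) (x : Fin (n + 1) → V) (w : Fin (n + 1) → CT),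
      Rot T D u n x w → List.ofFn w ∈ PCL → PCok T X D Z u x 0)
    (hPA : ∀ u, In X D Z u → ∀ (n : ℕ) (x : Fin (n + 1) → V) (w : Fin (n + 1) → CT),
      Rot T D u n x w → List.ofFn w ∈ PCA → PCok T X D Z u x 0)
    (hB : ∀ v, In X D Z v → ∀ (n : ℕ) (x : Fin (n + 1) → V) (w : Fin (n + 1) → CT),
      Rot T D v n x w →
      ∀ a' d, In X D Z a' → Akr T D a' d → Ask T D Z a' d v → ∃ i, w i = q ∧ (v, x i, d) ∈ T ∧
      (v, d, x (i + 1)) ∈ T ∧ ask (w (i - 1)) (w i) (w (i + 1)) = true ∧ ¬ PCok T X D Z v x i)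
    (hU : ∀ v, In X D Z v → ∀ a1 a2 d, In X D Z a1 → In X D Z a2 → Akr T D a1 d →
      Akr T D a2 d → Ask T D Z a1 d v → Ask T D Z a2 d v → a1 = a2)
    (hX : ∀ v, In X D Z v → ∀ (n : ℕ) (x : Fin (n + 1) → V) (w : Fin (n + 1) → CT),
      Rot T D v n x w → tb T X D Z v ≤ tR w + tL w)
    (hX1 : ∀ v, In X D Z v → IsW T D v [s2, m, s1, q] → ∃ b b', b ≠ b' ∧
      (In X D Z b ∨ b ∈ Z) ∧ (In X D Z b' ∨ b' ∈ Z) ∧ Req T D v b b' ∧ Req T D v b' b) :
    False := by
  have hR := hC.reg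
  have hg : ∀ u, In X D Z u → H72.G4.Good T D u := fun u hu => hC.good u hu.1 hu.2.1 hu.2.2
  have hin : ∀ u, In X D Z u → ¬ Tr a b c u := fun u hu => hR.inner hT hu.1 hu.2.2
  have hRED : ∀ u, In X D Z u → ∀ (n : ℕ) (x : Fin (n + 1) → V) (w : Fin (n + 1) → CT),
      Rot T D u n x w → List.ofFn w ∉ RED := by
    intro u hu n x w R
    have := Pool.Agent.H80.G4.red_words hM hT (hin u hu) (hg u hu) R 0
    unfold rt at this
    simpa only [zero_add] using this
  have h := dc (T := T) (X := X) (D := D) (Z := Z)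
    (fun p hp => by
      obtain ⟨⟨h1, _⟩, h2⟩ := mem_akp.1 hp
      exact exists_donor hT hR hPA h1 h2)
    (fun v hv => loc hM hT hR hg hPC hRED (mem_inn.1 hv) (hB v (mem_inn.1 hv))
      (hU v (mem_inn.1 hv)) (hX v (mem_inn.1 hv)))
    (fun v hv => fib_z6 hT (mem_inn.1 hv))
    (fun v hv => fib_y6 hT (mem_inn.1 hv))
    (fun v hv => hX1 v (mem_inn.1 hv))
    (fun v hv => z6_y6 hT (hin v (mem_inn.1 hv)) (mem_inn.1 hv).2.1)
  have h' := bnd_sum Pool.Agent.H13.G4.fanT hM hT hC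
  exact absurd (lt_of_lt_of_le h' h) (lt_irrefl _)

end Pool.Agent.H35.G4
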