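import Pool.Agent.H35.G4.DisG

/-!
# Discharging: the vertices of type `X1` have two requests
-/

set_option autoImplicit false

namespace Pool.Agent.H35.G4

open Relation Pool.Agent.H13.DA Pool.Agent.H72.G4 Pool.Agent.H96.G4 Pool.Agent.H13.G4
open Pool.Agent.H32.G4
open CT

variable {V : Type*} [DecidableEq V] {T X : Finset (V × V × V)} {D : V → V → Prop} {a b c : V}
variable {Z : List V}

theorem x1v_of (hT : Ts T D a b c) {v : V} (hv : ¬ Tr a b c v) (h : IsW T D v [s2, m, s1, q]) :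
    ∃ x1 x2 x3 x4, X1v T D v x1 x2 x3 x4 := by
  obtain ⟨n, x, w, R, hw⟩ := h
  have hn : n = 3 := by
    have := congrArg List.length hw
    simp at this
    exact this
  subst hn
  have as := hT.pl.asymm
  have w0 : w 0 = s2 := by
    have h := List.getElem_ofFn (f := w) (i := 0) (by simp)
    simp only [hw] at h
    exact h.symm
  have w1 : w 1 = m := by
    have h := List.getElem_ofFn (f := w) (i := 1) (by simp)
    simp only [hw] at h
    exact h.symm
  have w2 : w 2 = s1 := by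
    have h := List.getElem_ofFn (f := w) (i := 2) (by simp)
    simp only [hw] at h
    exact h.symm
  have w3 : w 3 = q := by
    have h := List.getElem_ofFn (f := w) (i := 3) (by simp)
    simp only [hw] at h
    exact h.symm
  have c0 := R.cor 0
  have c1 := R.cor 1
  have c2 := R.cor 2
  rw [w0, show (0 : Fin 4) + 1 = 1 from rfl] at c0
  rw [w1, show (1 : Fin 4) + 1 = 2 from rfl] at c1
  rw [w2, show (2 : Fin 4) + 1 = 3 from rfl] at c2
  obtain ⟨f0, c0⟩ := c0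
  obtain ⟨f1, c1⟩ := c1
  obtain ⟨f2, c2⟩ := c2
  have nb : ∀ u, Ar D v u ↔ u = x 0 ∨ u = x 1 ∨ u = x 2 ∨ u = x 3 := by
    intro u
    rw [R.nb]
    constructor
    · rintro ⟨i, rfl⟩
      fin_cases i <;> simp
    · rintro (rfl | rfl | rfl | rfl) <;> exact ⟨_, rfl⟩
  have na : ∀ i j : Fin 4, (j = i + 1 → w i = q) → (i = j + 1 → w j = q) → ¬ Ar D (x i) (x j) := by
    intro i j h1 h2 har
    rcases R.adj hT hv har with ⟨e, k⟩ | ⟨e, k⟩
    · exact k (h1 e)
    · exact k (h2 e)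
  have n02 : ¬ Ar D (x 0) (x 2) := na 0 2 (fun h => absurd h (by decide)) (fun h => absurd h (by decide))
  have n13 : ¬ Ar D (x 1) (x 3) := na 1 3 (fun h => absurd h (by decide)) (fun h => absurd h (by decide))
  have n03 : ¬ Ar D (x 0) (x 3) := na 0 3 (fun h => absurd h (by decide)) (fun _ => w3)
  rcases c0 with ⟨p1, p2, p3⟩ | ⟨p1, p2, p3⟩
  · -- `v > x0`, `v > x1`
    rcases c1 with ⟨q1, q2, q3⟩ | ⟨q1, q2, q3⟩
    · exact absurd q1 (as _ _ p2)
    · rcases c2 with ⟨r1, r2, r3⟩ | ⟨r1, r2, r3⟩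
      · exact absurd r1 (as _ _ q2)
      · refine ⟨x 3, x 2, x 1, x 0, ⟨fun u => (nb u).trans (by tauto), r2, q2, q1, p1, r3, q3, p3,
          Or.inr f2, Or.inr f1, Or.inr f0, fun h => n13 (ar_symm h), fun h => n02 (ar_symm h),
          fun h => n03 (ar_symm h)⟩⟩
  · rcases c1 with ⟨q1, q2, q3⟩ | ⟨q1, q2, q3⟩
    · rcases c2 with ⟨r1, r2, r3⟩ | ⟨r1, r2, r3⟩
      · exact ⟨x 0, x 1, x 2, x 3, ⟨nb, p1, p2, q2, r2, p3, q3, r3, Or.inl f0, Or.inl f1,
          Or.inl f2, n02, n13, n03⟩⟩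
      · exact absurd r1 (as _ _ q2)
    · exact absurd q1 (as _ _ p2)

/-- **A vertex of type `X1` requests from two vertices.** -/
theorem x1_two (hT : Ts T D a b c) (hR : Reg T X D Z) {v : V} (hv : In X D Z v)
    (h : IsW T D v [s2, m, s1, q]) : ∃ b b', b ≠ b' ∧
      (In X D Z b ∨ b ∈ Z) ∧ (In X D Z b' ∨ b' ∈ Z) ∧ Req T D v b b' ∧ Req T D v b' b := by
  have hvT : ¬ Tr a b c v := hR.inner hT hv.1 hv.2.2
  obtain ⟨x1, x2, x3, x4, h⟩ := x1v_of hT hvT h
  have cT := hT.pl.disc.cx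
  have cX := hR.disc.cx
  have vr : v ∉ verts (T \ X) := fun k => hv.2.2 (hR.sep v hv.1 k)
  have inn : ∀ y, Ar D v y → In X D Z y ∨ y ∈ Z := by
    intro y hy
    by_cases hyZ : y ∈ Z
    · exact Or.inr hyZ
    · refine Or.inl ⟨?_, (ar_re hy).2, hyZ⟩
      rcases (adj_split hR.sub v y).1 (hT.pl.ar_adj hy) with k | k
      · exact absurd (adj_vert (sdiff_isCx cT cX) k).1 vr
      · exact (adj_vert cX k).2.1
  refine ⟨x2, x3, ?_, inn x2 (Or.inr h.h2), inn x3 (Or.inl h.h3),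
    ⟨x1, x2, x3, x4, h, Or.inl ⟨rfl, rfl⟩⟩, ⟨x1, x2, x3, x4, h, Or.inr ⟨rfl, rfl⟩⟩⟩
  rintro rfl
  exact hT.pl.asymm _ _ h.h2 h.h3

end Pool.Agent.H35.G4
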