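import Pool.Agent.H35.G4.DisW

/-!
# Discharging: the local inequality for a rotation word
-/

set_option autoImplicit false

namespace Pool.Agent.H35.G4

open Pool.Agent.H72.G4 CT

/-- the class of `i` -/
def fi (n i : ℕ) : Fin (n + 1) := ⟨i % (n + 1), Nat.mod_lt _ (Nat.succ_pos n)⟩

theorem fi_val {n : ℕ} (i : Fin (n + 1)) : fi n i.val = i :=
  Fin.ext (Nat.mod_eq_of_lt i.isLt)

theorem fi_add (n i j : ℕ) : fi n (i + j) = fi n i + fi n j := by
  apply Fin.ext
  rw [Fin.val_add]
  simp [fi, Nat.add_mod]

theorem fi_one (n i : ℕ) : fi n (i + 1) = fi n i + 1 := by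
  rw [fi_add]
  congr 1

theorem fi_n (n i : ℕ) : fi n (i + n) = fi n i - 1 := by
  have h : fi n (i + n) + 1 = fi n i := by
    rw [← fi_one, add_assoc, fi_add]
    have : fi n (n + 1) = 0 := Fin.ext (by simp [fi])
    rw [this, add_zero]
  rw [← h, add_sub_cancel_right]

/-- the word started at `k` -/
def rt {n : ℕ} (w : Fin (n + 1) → CT) (k : Fin (n + 1)) : List CT :=
  List.ofFn (fun i => w (k + i))

variable {n : ℕ} (w : Fin (n + 1) → CT)

theorem W_ofFn (i : ℕ) : W (List.ofFn w) i = w (fi n i) := by
  unfold W
  have hl : (List.ofFn w).length = n + 1 := List.length_ofFn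
  rw [hl, List.getD_eq_getElem _ _ (by rw [hl]; exact Nat.mod_lt _ (Nat.succ_pos n)),
    List.getElem_ofFn]
  rfl

theorem rot_ofFn (i : ℕ) : rot (List.ofFn w) i = rt w (fi n i) := by
  unfold rot rt
  have hl : (List.ofFn w).length = n + 1 := List.length_ofFn
  rw [hl]
  apply List.ext_getElem
  · simp
  · intro k h1 h2
    rw [List.getElem_map, List.getElem_range, List.getElem_ofFn, W_ofFn, fi_add]
    congr 2
    have hk : k < n + 1 := by simpa using h1
    exact fi_val ⟨k, hk⟩

theorem cN_succ (p : ℕ → Bool) (k : ℕ) :
    cN p (k + 1) = (p 0).toNat + cN (fun i => p (i + 1)) k := by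
  induction k with
  | zero => simp [cN]
  | succ k ih =>
    rw [cN, ih, cN]
    omega

theorem cN_congr {p p' : ℕ → Bool} {k : ℕ} (h : ∀ i, i < k → p i = p' i) : cN p k = cN p' k := by
  induction k with
  | zero => rfl
  | succ k ih =>
    rw [cN, cN, ih (fun i hi => h i (by omega)), h k (by omega)]

theorem cN_card (p : ℕ → Bool) (k : ℕ) :
    cN p k = ((Finset.range k).filter (fun i => p i = true)).card := by
  induction k with
  | zero => rfl
  | succ k ih =>
    rw [cN, ih, Finset.range_add_one, Finset.filter_insert]
    cases h : p k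
    · simp
    · rw [if_pos rfl, Finset.card_insert_of_notMem (by simp)]
      rfl

theorem cN_fin (p : ℕ → Bool) (p' : Fin (n + 1) → Bool) (h : ∀ i, p i = p' (fi n i)) :
    cN p (n + 1) = (Finset.univ.filter (fun i => p' i = true)).card := by
  rw [cN_card]
  symm
  refine Finset.card_bij (fun i _ => i.val) ?_ ?_ ?_
  · intro i hi
    simp only [Finset.mem_filter, Finset.mem_univ, true_and, Finset.mem_range] at hi ⊢
    refine ⟨i.isLt, ?_⟩
    rw [h, fi_val, hi]
  · intro i _ j _ hij
    exact Fin.ext hij
  · intro k hk
    simp only [Finset.mem_filter, Finset.mem_range] at hk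
    refine ⟨⟨k, hk.1⟩, ?_, rfl⟩
    simp only [Finset.mem_filter, Finset.mem_univ, true_and]
    have h2 := hk.2
    rw [h] at h2
    have e : fi n k = ⟨k, hk.1⟩ := fi_val ⟨k, hk.1⟩
    rw [e] at h2
    exact h2

theorem cnt_cN : ∀ l : List CT, cnt l = cN (fun i => (l.getD i q).ct) l.length
  | [] => rfl
  | t :: l => by
    rw [cnt_cons, cnt_cN l, List.length_cons, cN_succ, add_comm]
    rfl

theorem par_cons (t : CT) (l : List CT) : par (t :: l) = xor t.ch (par l) := rfl

theorem par_tel : ∀ (l : List CT) (e : ℕ → Bool),
    (∀ i, i < l.length → (l.getD i q).ch = xor (e i) (e (i + 1))) →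
    par l = xor (e 0) (e l.length)
  | [], e, _ => by simp [par]
  | t :: l, e, h => by
    rw [par_cons, par_tel l (fun i => e (i + 1)) (fun i hi => by
      have := h (i + 1) (by simpa using hi)
      simpa using this)]
    have h0 := h 0 (by simp)
    simp only [List.getD_cons_zero] at h0
    rw [h0, List.length_cons]
    cases e 0 <;> cases e (0 + 1) <;> cases e (l.length + 1) <;> rfl

/-- number of the corners which count -/
def cw : ℕ := (Finset.univ.filter (fun i => (w i).ct = true)).card

/-- number of asked corners which are not reducible by path contraction -/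
def kc : ℕ := (Finset.univ.filter (fun i =>
  (ask (w (i - 1)) (w i) (w (i + 1)) && !(inl PCL (rt w i))) = true)).card

def tR : ℕ := (Finset.univ.filter (fun i => rqR (w i) (w (i + 1)) (w (i + 1 + 1)) = true)).card

def tL : ℕ := (Finset.univ.filter (fun i => rqL (w (i - 1)) (w i) (w (i + 1)) = true)).card

theorem kN_ofFn : kN (List.ofFn w) = kc w := by
  unfold kN kc
  have hl : (List.ofFn w).length = n + 1 := List.length_ofFn
  rw [hl]
  apply cN_fin
  intro i
  rw [W_ofFn, W_ofFn, W_ofFn, rot_ofFn, Nat.add_sub_cancel, fi_n, fi_one]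

theorem tRN_ofFn : tRN (List.ofFn w) = tR w := by
  unfold tRN tR
  have hl : (List.ofFn w).length = n + 1 := List.length_ofFn
  rw [hl]
  apply cN_fin (p' := fun i => rqR (w i) (w (i + 1)) (w (i + 1 + 1)))
  intro i
  rw [W_ofFn, W_ofFn, W_ofFn, show i + 2 = (i + 1) + 1 from rfl, fi_one n (i + 1), fi_one]

theorem tLN_ofFn : tLN (List.ofFn w) = tL w := by
  unfold tLN tL
  have hl : (List.ofFn w).length = n + 1 := List.length_ofFn
  rw [hl]
  apply cN_fin (p' := fun i => rqL (w (i - 1)) (w i) (w (i + 1)))
  intro i
  rw [W_ofFn, W_ofFn, W_ofFn, Nat.add_sub_cancel, fi_n, fi_one]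

theorem cnt_ofFn : cnt (List.ofFn w) = cw w := by
  rw [cnt_cN]
  unfold cw
  have hl : (List.ofFn w).length = n + 1 := List.length_ofFn
  rw [hl]
  rw [cN_congr (p' := fun i => (w (fi n i)).ct)]
  · apply cN_fin
    intro i
    rfl
  · intro i hi
    rw [List.getD_eq_getElem _ _ (by rw [hl]; exact hi), List.getElem_ofFn]
    congr 2
    exact (fi_val ⟨i, hi⟩).symm

theorem isr_ofFn {p : List CT} : isr p (List.ofFn w) = true ↔ ∃ k, rt w k = p := by
  unfold isr
  have hl : (List.ofFn w).length = n + 1 := List.length_ofFn
  rw [hl, List.any_eq_true]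
  constructor
  · rintro ⟨i, _, hi⟩
    rw [leq_iff, rot_ofFn] at hi
    exact ⟨_, hi⟩
  · rintro ⟨k, hk⟩
    refine ⟨k.val, List.mem_range.2 k.isLt, ?_⟩
    rw [leq_iff, rot_ofFn, fi_val, hk]

theorem chn_of : ∀ (l : List CT),
    (∀ i, i + 1 < l.length → cov (l.getD i q) (l.getD (i + 1) q) = true) → Chn l
  | [], _ => trivial
  | [_], _ => trivial
  | x :: y :: l, h => by
    refine ⟨?_, chn_of (y :: l) ?_⟩
    · have := h 0 (by simp)
      simpa using this
    · intro i hi
      have := h (i + 1) (by simpa using hi)
      simpa using this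

/-- the degree is at most twice the number of counting corners -/
theorem len_le (hc : ∀ i, cov (w i) (w (i + 1)) = true) : n + 1 ≤ 2 * cw w := by
  classical
  have e : (Finset.univ : Finset (Fin (n + 1))) ⊆
      Finset.univ.filter (fun i => (w i).ct = true) ∪
        (Finset.univ.filter (fun i => (w (i + 1)).ct = true)) := by
    intro i _
    have h := hc i
    simp only [Finset.mem_union, Finset.mem_filter, Finset.mem_univ, true_and]
    unfold cov at h
    rw [Bool.or_eq_true] at h
    rcases h with h | h
    · left
      cases hw : w i <;> rw [hw] at h <;> first | rfl | exact absurd h (by decide)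
    · right
      cases hw : w (i + 1) <;> rw [hw] at h <;> first | rfl | exact absurd h (by decide)
  have e1 : (Finset.univ.filter (fun i => (w (i + 1)).ct = true)).card =
      (Finset.univ.filter (fun i => (w i).ct = true)).card := by
    refine Finset.card_bij (fun i _ => i + 1) ?_ ?_ ?_
    · intro i hi
      simpa using hi
    · intro i _ j _ hij
      exact add_right_cancel hij
    · intro j hj
      refine ⟨j - 1, ?_, by simp⟩
      simpa using hj
  have c1 := (Finset.card_le_card e).trans (Finset.card_union_le _ _)
  rw [e1, Finset.card_univ, Fintype.card_fin] at c1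
  unfold cw
  omega

/-- many counting corners: the bounds are trivial -/
theorem triv : 2 * kc w + 3 * (tR w + tL w) ≤ 2 * cw w := by
  classical
  set Q := Finset.univ.filter (fun i => w i = q) with hQ
  set A := Finset.univ.filter (fun i => w i = s1) with hA
  set B := Finset.univ.filter (fun i => w i = s2) with hB
  have k1 : kc w ≤ Q.card := by
    apply Finset.card_le_card
    intro i hi
    simp only [Finset.mem_filter, Finset.mem_univ, true_and, hQ] at hi ⊢
    rw [Bool.and_eq_true] at hi
    have := hi.1
    unfold ask at this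
    rw [Bool.and_eq_true, ceq_iff] at this
    exact this.1
  have inj : Function.Injective (fun i : Fin (n + 1) => i + 1) := fun i j h => add_right_cancel h
  have k2 : 2 * tR w ≤ B.card := by
    unfold tR
    set R := Finset.univ.filter (fun i => rqR (w i) (w (i + 1)) (w (i + 1 + 1)) = true) with hR
    have hR' : ∀ i, i ∈ R → w i = s2 ∧ w (i + 1) = s2 ∧ (w (i + 1 + 1)).cl = true := by
      intro i hi
      have := (Finset.mem_filter.1 hi).2
      unfold rqR at this
      rw [Bool.and_eq_true, Bool.and_eq_true, ceq_iff, ceq_iff] at this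
      exact ⟨this.1.1, this.1.2, this.2⟩
    have h1 : R ∪ R.image (fun i => i + 1) ⊆ B := by
      intro i hi
      rcases Finset.mem_union.1 hi with h | h
      · exact Finset.mem_filter.2 ⟨Finset.mem_univ _, (hR' i h).1⟩
      · obtain ⟨j, hj, rfl⟩ := Finset.mem_image.1 h
        exact Finset.mem_filter.2 ⟨Finset.mem_univ _, (hR' j hj).2.1⟩
    have h2 : Disjoint R (R.image (fun i => i + 1)) := by
      rw [Finset.disjoint_left]
      intro i hi h
      obtain ⟨j, hj, rfl⟩ := Finset.mem_image.1 h
      have g1 := (hR' j hj).2.2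
      have g2 := (hR' _ hi).2.1
      rw [g2] at g1
      exact absurd g1 (by decide)
    have h3 := Finset.card_le_card h1
    rw [Finset.card_union_of_disjoint h2, Finset.card_image_of_injective _ inj] at h3
    omega
  have k3 : 2 * tL w ≤ A.card := by
    unfold tL
    set R := Finset.univ.filter (fun i => rqL (w (i - 1)) (w i) (w (i + 1)) = true) with hR
    have hR' : ∀ i, i ∈ R → (w (i - 1)).cr = true ∧ w i = s1 ∧ w (i + 1) = s1 := by
      intro i hi
      have := (Finset.mem_filter.1 hi).2
      unfold rqL at this
      rw [Bool.and_eq_true, Bool.and_eq_true, ceq_iff, ceq_iff] at this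
      exact ⟨this.1.1, this.1.2, this.2⟩
    have h1 : R ∪ R.image (fun i => i + 1) ⊆ A := by
      intro i hi
      rcases Finset.mem_union.1 hi with h | h
      · exact Finset.mem_filter.2 ⟨Finset.mem_univ _, (hR' i h).2.1⟩
      · obtain ⟨j, hj, rfl⟩ := Finset.mem_image.1 h
        exact Finset.mem_filter.2 ⟨Finset.mem_univ _, (hR' j hj).2.2⟩
    have h2 : Disjoint R (R.image (fun i => i + 1)) := by
      rw [Finset.disjoint_left]
      intro i hi h
      obtain ⟨j, hj, rfl⟩ := Finset.mem_image.1 h
      have g1 := (hR' _ hi).1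
      have g2 := (hR' j hj).2.1
      rw [add_sub_cancel_right, g2] at g1
      exact absurd g1 (by decide)
    have h3 := Finset.card_le_card h1
    rw [Finset.card_union_of_disjoint h2, Finset.card_image_of_injective _ inj] at h3
    omega
  have k4 : Q.card + (A.card + B.card) ≤ cw w := by
    rw [← Finset.card_union_of_disjoint, ← Finset.card_union_of_disjoint]
    · apply Finset.card_le_card
      intro i hi
      simp only [Finset.mem_union, Finset.mem_filter, Finset.mem_univ, true_and, hQ, hA, hB]
        at hi ⊢
      rcases hi with h | h | h <;> rw [h] <;> rfl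
    · rw [Finset.disjoint_left]
      intro i hi h
      simp only [Finset.mem_union, Finset.mem_filter, Finset.mem_univ, true_and, hQ, hA, hB]
        at hi h
      rw [hi] at h
      rcases h with h | h <;> exact absurd h (by decide)
    · rw [Finset.disjoint_left]
      intro i hi h
      simp only [Finset.mem_filter, Finset.mem_univ, true_and, hA, hB] at hi h
      rw [hi] at h
      exact absurd h (by decide)
  omega

open Classical in
/-- **The local inequality.** -/
theorem local_ineq (hn : 4 ≤ n + 1) (hc : ∀ i, (w i).cr = true ∨ (w (i + 1)).cl = true)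
    (d : Fin (n + 1) → Bool) (hd : ∀ i, (w i).ch = xor (d i) (d (i + 1)))
    (hr : ∀ k, rt w k ∉ RED) :
    24 + 2 * kc w + 3 * (tR w + tL w) ≤ 6 * cw w + (if ∃ k, rt w k = wX1 then 6 else 0) +
      (if ∃ k, rt w k = wZ6 then 6 else 0) + (if ∃ k, rt w k = wY6 then 2 else 0) := by
  have hc' : ∀ i, cov (w i) (w (i + 1)) = true := by
    intro i
    unfold cov
    rw [Bool.or_eq_true]
    exact hc i
  by_cases h6 : 6 ≤ cw w
  · have := triv w
    omega
  · have hl : (List.ofFn w).length = n + 1 := List.length_ofFn
    have hlen := len_le w hc'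
    have hget : ∀ i (hi : i < n + 1), (List.ofFn w).getD i q = w (fi n i) := by
      intro i hi
      rw [List.getD_eq_getElem _ _ (by rw [hl]; exact hi), List.getElem_ofFn]
      congr 1
      exact (fi_val ⟨i, hi⟩).symm
    have hP := table (l := List.ofFn w) ?_ ?_ ?_ ?_
    · unfold P at hP
      have e1 : ccov (List.ofFn w) = true := by
        unfold ccov
        rw [List.all_eq_true]
        intro i _
        rw [W_ofFn, W_ofFn, fi_one]
        exact hc' _
      have e2 : par (List.ofFn w) = false := by
        rw [par_tel (List.ofFn w) (fun i => d (fi n i))]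
        · rw [hl]
          have : fi n (n + 1) = fi n 0 := Fin.ext (by simp [fi])
          rw [this, Bool.xor_self]
        · intro i hi
          rw [hl] at hi
          rw [hget i hi, hd, fi_one]
      have e3 : (RED.any fun p => isr p (List.ofFn w)) = false := by
        rw [Bool.eq_false_iff]
        intro h
        rw [List.any_eq_true] at h
        obtain ⟨p, hp, h⟩ := h
        rw [isr_ofFn] at h
        obtain ⟨k, hk⟩ := h
        exact hr k (hk ▸ hp)
      rw [e1, e2, e3] at hP
      simp only [Bool.not_true, Bool.false_or] at hP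
      unfold ineq at hP
      rw [Nat.ble_eq, kN_ofFn, tRN_ofFn, tLN_ofFn, cnt_ofFn] at hP
      have i1 : ∀ p : List CT, (isr p (List.ofFn w)).toNat =
          if ∃ k, rt w k = p then 1 else 0 := by
        intro p
        by_cases h : ∃ k, rt w k = p
        · rw [if_pos h, (isr_ofFn w).2 h]
          rfl
        · rw [if_neg h, Bool.eq_false_iff.2 (fun h' => h ((isr_ofFn w).1 h'))]
          rfl
      rw [i1, i1, i1] at hP
      split_ifs at hP ⊢ <;> omega
    · apply chn_of
      intro i hi
      rw [hl] at hi
      rw [hget i (by omega), hget (i + 1) hi, fi_one]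
      exact hc' _
    · rw [cnt_ofFn]
      omega
    · rw [hl]
      exact hn
    · rw [hl]
      omega

end Pool.Agent.H35.G4
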