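import Pool.Agent.H35.G4.DisD
import Pool.Agent.H35.G4.DisX
import Pool.Agent.H72.G4.Row

/-!
# Discharging: askers, donors, requests
-/

set_option autoImplicit false

namespace Pool.Agent.H35.G4

open Relation Pool.Agent.H13.DA Pool.Agent.H72.G4 Pool.Agent.H96.G4 Pool.Agent.H13.G4
open Pool.Agent.H32.G4
open CT

variable {V : Type*} [DecidableEq V]

/-- `v` has a rotation with the word `p` -/
def IsW (T : Finset (V × V × V)) (D : V → V → Prop) (v : V) (p : List CT) : Prop :=
  ∃ (n : ℕ) (x : Fin (n + 1) → V) (w : Fin (n + 1) → CT), Rot T D v n x w ∧ List.ofFn w = p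

/-- `a` is an asker across the dummy `d`: `Z6` across every quad, `Y6` across the quad between its
two mid corners -/
def Akr (T : Finset (V × V × V)) (D : V → V → Prop) (a d : V) : Prop :=
  ¬ Re D d ∧ ∃ (x : Fin 6 → V) (w : Fin 6 → CT), Rot T D a 5 x w ∧
    (List.ofFn w = [m, q, m, q, m, q] ∨ List.ofFn w = [m, q, m, q, q, q]) ∧
    (a, x 1, d) ∈ T ∧ (a, d, x 2) ∈ T

/-- the rule: `a` asks `b` across the dummy `d` of the quad `a > o > f > i > a` -/
def Ask (T : Finset (V × V × V)) (D : V → V → Prop) (Z : List V) (a d b : V) : Prop :=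
  ∃ o f i, Qd T D d a o f i ∧
    ((o ∈ Z ∧ b = o) ∨ (o ∉ Z ∧ i ∈ Z ∧ b = i) ∨ (o ∉ Z ∧ i ∉ Z ∧ f ∈ Z ∧ b = f) ∨
      (o ∉ Z ∧ i ∉ Z ∧ f ∉ Z ∧ ((¬ Nsp T D o f ∧ ¬ Nsp T D f i ∧ b = f) ∨
        (¬ Nsp T D o f ∧ Nsp T D f i ∧ b = o) ∨ (Nsp T D o f ∧ ¬ Nsp T D f i ∧ b = i))))

/-- `v` is of type `X1` and requests from `b`, the other end of its special arc being `e` -/
def Req (T : Finset (V × V × V)) (D : V → V → Prop) (v b e : V) : Prop :=
  ∃ x1 x2 x3 x4, X1v T D v x1 x2 x3 x4 ∧ ((b = x2 ∧ e = x3) ∨ (b = x3 ∧ e = x2))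

open Classical in
/-- the inner real vertices of the region -/
noncomputable def inn (X : Finset (V × V × V)) (D : V → V → Prop) (Z : List V) : Finset V :=
  (verts X).filter (fun v => Re D v ∧ v ∉ Z)

open Classical in
/-- the pairs asker, dummy -/
noncomputable def akp (T X : Finset (V × V × V)) (D : V → V → Prop) (Z : List V) :
    Finset (V × V) :=
  (inn X D Z ×ˢ verts T).filter (fun p => Akr T D p.1 p.2)

open Classical in
/-- the number of asks at `b` -/
noncomputable def kb (T X : Finset (V × V × V)) (D : V → V → Prop) (Z : List V) (b : V) : ℕ :=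
  ((akp T X D Z).filter (fun p => Ask T D Z p.1 p.2 b)).card

open Classical in
/-- the number of requests at `b` -/
noncomputable def tb (T X : Finset (V × V × V)) (D : V → V → Prop) (Z : List V) (b : V) : ℕ :=
  ((inn X D Z).filter (fun v => ∃ e, Req T D v b e)).card

open Classical in
theorem mem_inn {X : Finset (V × V × V)} {D : V → V → Prop} {Z : List V} {v : V} :
    v ∈ inn X D Z ↔ In X D Z v := by
  unfold inn In
  rw [Finset.mem_filter]

end Pool.Agent.H35.G4
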