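import Pool.Agent.H35.G4.Dis
import Pool.Agent.H35.G4.DisC
import Pool.Agent.H39.G4.DonE
import Pool.Agent.H39.G4.Rqs

/-!
# Discharging: the contradiction from the path contraction rows alone
-/

set_option autoImplicit false

namespace Pool.Agent.H35.G4

open Relation Pool.Agent.H13.DA Pool.Agent.H72.G4 Pool.Agent.H96.G4 Pool.Agent.H13.G4
open Pool.Agent.H32.G4
open CT

variable {V : Type*} [DecidableEq V] {T X : Finset (V × V × V)} {D : V → V → Prop} {a b c : V}
variable {Z : List V}

/-- **The discharging**: the path contraction rows (words started at the contracted quad corner)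
contradict the existence of a minimal counterexample. -/
theorem discharge [Infinite V] (hM : MCw T D a b c) (hT : Ts T D a b c)
    (hC : Ctx T X D a b c Z)
    (hP : ∀ u, In X D Z u → ∀ (n : ℕ) (x : Fin (n + 1) → V) (w : Fin (n + 1) → CT),
      Rot T D u n x w → List.ofFn w ∈ PCL ++ PCA → PCok T X D Z u x 0) : False := by
  refine discharge' hM hT hC
    (fun u hu n x w R h => hP u hu n x w R (List.mem_append.2 (Or.inl h)))
    (fun u hu n x w R h => hP u hu n x w R (List.mem_append.2 (Or.inr h)))
    (fun v hv n x w R a' d ha hk h =>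
      Pool.Agent.H39.G4.don_side hT hC.reg ha hv hk h R)
    (fun v hv a1 a2 d _ _ h1 h2 k1 k2 =>
      Pool.Agent.H39.G4.don_uniq hT hv.2.2 h1 h2 k1 k2)
    (fun v hv n x w R => Pool.Agent.H39.G4.tb_le_inner hM hT hC hv R)
    (fun v hv h => x1_two hT hC.reg hv h)

end Pool.Agent.H35.G4
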