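import Pool.Agent.H35.G4.Dis2
import Pool.Agent.H94.G4.W6r

/-!
# Discharging: only the path contraction rows of the donors are left
-/

set_option autoImplicit false

namespace Pool.Agent.H35.G4

open Relation Pool.Agent.H13.DA Pool.Agent.H72.G4 Pool.Agent.H96.G4 Pool.Agent.H13.G4
open CT

variable {V : Type*} [DecidableEq V] {T X : Finset (V × V × V)} {D : V → V → Prop} {a b c : V}
variable {Z : List V}

/-- **The discharging**, the rows of `Z6` and `W6` filled in. -/
theorem discharge3 [Infinite V] (hM : MCw T D a b c) (hT : Ts T D a b c)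
    (hC : Ctx T X D a b c Z)
    (hP : ∀ u, In X D Z u → ∀ (n : ℕ) (x : Fin (n + 1) → V) (w : Fin (n + 1) → CT),
      Rot T D u n x w → List.ofFn w ∈ PCL → PCok T X D Z u x 0) : False := by
  refine discharge hM hT hC fun u hu n x w R h => ?_
  rcases List.mem_append.1 h with h | h
  · exact hP u hu n x w R h
  · exact Pool.Agent.H94.G4.row_W6_pca hM hT hC u hu n x w R h

end Pool.Agent.H35.G4
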