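import Pool.Agent.H72.G4.Class

/-!
# Discharging: definitions (special edges, quads, asks)
-/

set_option autoImplicit false

namespace Pool.Agent.H35.G4

open Relation Pool.Agent.H13.DA Pool.Agent.H72.G4 Pool.Agent.H96.G4

variable {V : Type*} [DecidableEq V]

/-- the edge `x y` is not special: there is a real triangle at it whose apex is not its middle -/
def Nsp (T : Finset (V × V × V)) (D : V → V → Prop) (x y : V) : Prop :=
  ∃ z, Re D z ∧ Face T x y z ∧ (D z x ↔ D z y)

/-- `a > o > f > i > a` is a directed quad with dummy `d` -/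
structure Qd (T : Finset (V × V × V)) (D : V → V → Prop) (d a o f i : V) : Prop where
  nr : ¬ Re D d
  ao : D a o
  of : D o f
  fi : D f i
  ia : D i a
  nb : ∀ y, Adj T d y ↔ y = a ∨ y = o ∨ y = f ∨ y = i

/-- the spoke `a x` has a real triangle with `a` in the middle -/
def Mid (T : Finset (V × V × V)) (D : V → V → Prop) (a x : V) : Prop :=
  ∃ z, Re D z ∧ Face T a x z ∧ ¬ SoSi D a x z

/-- `v` is a vertex of type X1 with special arc `x2 > x3` -/
structure X1v (T : Finset (V × V × V)) (D : V → V → Prop) (v x1 x2 x3 x4 : V) : Prop where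
  nb : ∀ u, Ar D v u ↔ u = x1 ∨ u = x2 ∨ u = x3 ∨ u = x4
  h1 : D x1 v
  h2 : D x2 v
  h3 : D v x3
  h4 : D v x4
  h21 : D x2 x1
  h23 : D x2 x3
  h43 : D x4 x3
  f12 : Face T v x1 x2
  f23 : Face T v x2 x3
  f34 : Face T v x3 x4
  n13 : ¬ Ar D x1 x3
  n24 : ¬ Ar D x2 x4
  n14 : ¬ Ar D x1 x4

end Pool.Agent.H35.G4
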