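import Pool.Agent.H35.G4.DisG

/-!
# Discharging: fibres of the asks, number of asks at a donor
-/

set_option autoImplicit false

namespace Pool.Agent.H35.G4

open Relation Pool.Agent.H13.DA Pool.Agent.H72.G4 Pool.Agent.H96.G4 Pool.Agent.H13.G4
open Pool.Agent.H32.G4
open CT

variable {V : Type*} [DecidableEq V] {T X : Finset (V × V × V)} {D : V → V → Prop} {a b c : V}
variable {Z : List V}

/-- the number of dummies at an inner vertex is the number of quad corners -/
theorem qv_eq (hT : Ts T D a b c) {u : V} (hu : ¬ Tr a b c u) (hur : Re D u) {n : ℕ}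
    {x : Fin (n + 1) → V} {w : Fin (n + 1) → CT} (R : Rot T D u n x w) :
    qv T D u = (Finset.univ.filter (fun i => w i = q)).card := by
  classical
  apply le_antisymm
  · unfold qv
    have hex : ∀ d, ∃ i, (¬ Re D d ∧ Adj T u d) →
        (w i = q ∧ (u, x i, d) ∈ T) := by
      intro d
      by_cases h : ¬ Re D d ∧ Adj T u d
      · obtain ⟨i, h1, h2, _⟩ := corner_of hT hu R hur h.1 h.2.symm
        exact ⟨i, fun _ => ⟨h1, h2⟩⟩
      · exact ⟨0, fun k => absurd k h⟩
    choose g hg using hex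
    refine Finset.card_le_card_of_injOn g ?_ ?_
    · intro d hd
      have hd' := (Finset.mem_filter.1 (Finset.mem_coe.1 hd)).2
      exact Finset.mem_coe.2 (Finset.mem_filter.2 ⟨Finset.mem_univ _, (hg d hd').1⟩)
    · intro d hd d' hd' he
      have k1 := (Finset.mem_filter.1 (Finset.mem_coe.1 hd)).2
      have k2 := (Finset.mem_filter.1 (Finset.mem_coe.1 hd')).2
      have m1 := (hg d k1).2
      have m2 := (hg d' k2).2
      rw [he] at m1
      exact hT.pl.disc.cx.uniq m1 m2
  · exact R.count_q hT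

theorem cntq_ofFn {n : ℕ} (w : Fin (n + 1) → CT) :
    (Finset.univ.filter (fun i => w i = q)).card =
      ((List.ofFn w).filter (fun t => ceq t q)).length := by
  rw [List.ofFn_eq_map, List.filter_map, List.length_map]
  have e : (Finset.univ.filter (fun i : Fin (n + 1) => w i = q)) =
      ((List.finRange (n + 1)).filter (fun i => ceq (w i) q)).toFinset := by
    ext i
    simp [ceq_iff]
  rw [e, List.toFinset_card_of_nodup ((List.nodup_finRange _).filter _)]
  rfl

theorem IsW.qv (hT : Ts T D a b c) {u : V} (hu : ¬ Tr a b c u) (hur : Re D u) {p : List CT}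
    (h : IsW T D u p) : qv T D u = (p.filter (fun t => ceq t q)).length := by
  obtain ⟨n, x, w, R, rfl⟩ := h
  rw [qv_eq hT hu hur R, cntq_ofFn]

/-- `Z6` and `Y6` exclude each other -/
theorem z6_y6 (hT : Ts T D a b c) {u : V} (hu : ¬ Tr a b c u) (hur : Re D u)
    (h1 : IsW T D u [q, m, q, m, q, m]) (h2 : IsW T D u [m, q, m, q, q, q]) : False := by
  have e1 := h1.qv hT hu hur
  have e2 := h2.qv hT hu hur
  rw [e1] at e2
  exact absurd e2 (by decide)

theorem ofFn_getElem {n : ℕ} {w : Fin (n + 1) → CT} {l : List CT} (h : List.ofFn w = l)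
    (k : Fin (n + 1)) (hk : k.val < l.length) : w k = l[k.val] := by
  subst h
  rw [List.getElem_ofFn]

theorem isW_of_rt {u : V} {n : ℕ}
    {x : Fin (n + 1) → V} {w : Fin (n + 1) → CT} (R : Rot T D u n x w) {p : List CT}
    (h : ∃ k, rt w k = p) : IsW T D u p := by
  obtain ⟨k, hk⟩ := h
  exact ⟨n, _, _, R.shift k, hk⟩

open Classical in
/-- a vertex `Z6` has three asks -/
theorem fib_z6 (hT : Ts T D a b c) {u : V} (hu : In X D Z u)
    (h : IsW T D u [q, m, q, m, q, m]) :
    3 ≤ ((akp T X D Z).filter (fun p => p.1 = u)).card := by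
  obtain ⟨n, x, w, R, hw⟩ := h
  have cT := hT.pl.disc.cx
  have hn : n = 5 := by
    have := congrArg List.length hw
    simp at this
    exact this
  subst hn
  have w0 : w 0 = q := ofFn_getElem hw 0 (by decide)
  have w2 : w 2 = q := ofFn_getElem hw 2 (by decide)
  have w4 : w 4 = q := ofFn_getElem hw 4 (by decide)
  have w1 : w 1 = m := ofFn_getElem hw 1 (by decide)
  have w3 : w 3 = m := ofFn_getElem hw 3 (by decide)
  have w5 : w 5 = m := ofFn_getElem hw 5 (by decide)
  obtain ⟨d0, r0, f0, g0⟩ := dummy_of R w0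
  obtain ⟨d2, r2, f2, g2⟩ := dummy_of R w2
  obtain ⟨d4, r4, f4, g4⟩ := dummy_of R w4
  have inj : ∀ {d d' : V} {i i' : Fin 6}, (u, d, x i) ∈ T → (u, d', x i') ∈ T → i ≠ i' →
      d ≠ d' := by
    rintro d d' i i' h1 h2 h3 rfl
    exact h3 (R.inj (cT.uniq h1 h2))
  have n02 : d0 ≠ d2 := inj g0 g2 (by decide)
  have n04 : d0 ≠ d4 := inj g0 g4 (by decide)
  have n24 : d2 ≠ d4 := inj g2 g4 (by decide)
  have key : ∀ {d : V} (k : Fin 6), ¬ Re D d → (∀ j : Fin 6, w (k + j) = [m, q, m, q, m, q][j.val]) →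
      (u, x (k + 1), d) ∈ T → (u, d, x (k + 2)) ∈ T → (u, d) ∈ (akp T X D Z).filter
        (fun p => p.1 = u) := by
    intro d k hd hk h1 h2
    refine Finset.mem_filter.2 ⟨Finset.mem_filter.2 ⟨Finset.mem_product.2
      ⟨mem_inn.2 hu, vert3 cT h1⟩, hd, _, _, R.shift k, Or.inl ?_, h1, h2⟩, rfl⟩
    apply List.ext_getElem
    · simp
    · intro j h1 h2
      rw [List.getElem_ofFn]
      exact hk ⟨j, by simpa using h1⟩
  have k0 := key (d := d0) 5 r0 (by
    intro j
    fin_cases j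
    · exact w5
    · exact w0
    · exact w1
    · exact w2
    · exact w3
    · exact w4) f0 g0
  have k2 := key (d := d2) 1 r2 (by
    intro j
    fin_cases j
    · exact w1
    · exact w2
    · exact w3
    · exact w4
    · exact w5
    · exact w0) f2 g2
  have k4 := key (d := d4) 3 r4 (by
    intro j
    fin_cases j
    · exact w3
    · exact w4
    · exact w5
    · exact w0
    · exact w1
    · exact w2) f4 g4
  have : ({(u, d0), (u, d2), (u, d4)} : Finset (V × V)) ⊆
      (akp T X D Z).filter (fun p => p.1 = u) := by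
    intro p hp
    simp only [Finset.mem_insert, Finset.mem_singleton] at hp
    rcases hp with rfl | rfl | rfl
    · exact k0
    · exact k2
    · exact k4
  have hc := Finset.card_le_card this
  rw [Finset.card_insert_of_notMem, Finset.card_insert_of_notMem, Finset.card_singleton] at hc
  · exact hc
  · simp [n24]
  · simp [n02, n04]

open Classical in
/-- a vertex `Y6` has an ask -/
theorem fib_y6 (hT : Ts T D a b c) {u : V} (hu : In X D Z u)
    (h : IsW T D u [m, q, m, q, q, q]) :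
    1 ≤ ((akp T X D Z).filter (fun p => p.1 = u)).card := by
  obtain ⟨n, x, w, R, hw⟩ := h
  have cT := hT.pl.disc.cx
  have hn : n = 5 := by
    have := congrArg List.length hw
    simp at this
    exact this
  subst hn
  have w1 : w 1 = q := ofFn_getElem hw 1 (by decide)
  obtain ⟨d, hd, h1, h2⟩ := dummy_of R w1
  apply Finset.card_pos.2
  exact ⟨(u, d), Finset.mem_filter.2 ⟨Finset.mem_filter.2 ⟨Finset.mem_product.2
      ⟨mem_inn.2 hu, vert3 cT h1⟩, hd, _, _, R, Or.inr hw, h1, h2⟩, rfl⟩⟩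

open Classical in
/-- the number of asks at an inner donor -/
theorem kb_le (hT : Ts T D a b c)
    (hPC : ∀ u, In X D Z u → ∀ (n : ℕ) (x : Fin (n + 1) → V) (w : Fin (n + 1) → CT),
      Rot T D u n x w → List.ofFn w ∈ PCL → PCok T X D Z u x 0)
    {v : V} (hv : In X D Z v) {n : ℕ} {x : Fin (n + 1) → V} {w : Fin (n + 1) → CT}
    (R : Rot T D v n x w)
    (hB : ∀ a' d, In X D Z a' → Akr T D a' d → Ask T D Z a' d v → ∃ i, w i = q ∧ (v, x i, d) ∈ T ∧
      (v, d, x (i + 1)) ∈ T ∧ ask (w (i - 1)) (w i) (w (i + 1)) = true ∧ ¬ PCok T X D Z v x i)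
    (hU : ∀ a1 a2 d, In X D Z a1 → In X D Z a2 → Akr T D a1 d → Akr T D a2 d →
      Ask T D Z a1 d v → Ask T D Z a2 d v → a1 = a2) :
    kb T X D Z v ≤ kc w := by
  have cT := hT.pl.disc.cx
  have hex : ∀ p : V × V, ∃ i, (In X D Z p.1 ∧ Akr T D p.1 p.2 ∧ Ask T D Z p.1 p.2 v) →
      ((v, x i, p.2) ∈ T ∧ ask (w (i - 1)) (w i) (w (i + 1)) = true ∧
        ¬ PCok T X D Z v x i) := by
    intro p
    by_cases h : In X D Z p.1 ∧ Akr T D p.1 p.2 ∧ Ask T D Z p.1 p.2 v
    · obtain ⟨i, _, h2, _, h4, h5⟩ := hB p.1 p.2 h.1 h.2.1 h.2.2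
      exact ⟨i, fun _ => ⟨h2, h4, h5⟩⟩
    · exact ⟨0, fun k => absurd k h⟩
  choose g hg using hex
  have hmem : ∀ p ∈ (akp T X D Z).filter (fun p => Ask T D Z p.1 p.2 v),
      In X D Z p.1 ∧ Akr T D p.1 p.2 ∧ Ask T D Z p.1 p.2 v := by
    intro p hp
    obtain ⟨h1, h2⟩ := Finset.mem_filter.1 hp
    obtain ⟨h3, h4⟩ := Finset.mem_filter.1 h1
    exact ⟨mem_inn.1 (Finset.mem_product.1 h3).1, h4, h2⟩
  unfold kb kc
  refine Finset.card_le_card_of_injOn g ?_ ?_
  · intro p hp
    obtain ⟨h2, h4, h5⟩ := hg p (hmem p (Finset.mem_coe.1 hp))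
    refine Finset.mem_coe.2 (Finset.mem_filter.2 ⟨Finset.mem_univ _, ?_⟩)
    rw [Bool.and_eq_true]
    refine ⟨h4, ?_⟩
    rw [Bool.not_eq_true', Bool.eq_false_iff]
    intro h
    rw [inl_iff] at h
    exact h5 (PCok.of_shift (hPC v hv n _ _ (R.shift (g p)) h))
  · intro p hp p' hp' he
    have m1 := hmem p (Finset.mem_coe.1 hp)
    have m2 := hmem p' (Finset.mem_coe.1 hp')
    have k1 := (hg p m1).1
    have k2 := (hg p' m2).1
    rw [he] at k1
    have e := cT.uniq k1 k2
    obtain ⟨p1, p2⟩ := p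
    obtain ⟨p1', p2'⟩ := p'
    simp only at e m1 m2
    subst e
    rw [hU p1 p1' p2 m1.1 m2.1 m1.2.1 m2.2.1 m1.2.2 m2.2.2]

end Pool.Agent.H35.G4
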