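import Pool.Agent.H35.G4.DisE

/-!
# Discharging: quads at a vertex, existence of donors
-/

set_option autoImplicit false

namespace Pool.Agent.H35.G4

open Relation Pool.Agent.H13.DA Pool.Agent.H72.G4 Pool.Agent.H96.G4 Pool.Agent.H13.G4
open Pool.Agent.H32.G4
open CT

variable {V : Type*} [DecidableEq V] {T X : Finset (V × V × V)} {D : V → V → Prop} {a b c : V}
variable {Z : List V}

/-- the corner of a dummy -/
theorem corner_of (hT : Ts T D a b c) {u d : V} (hu : ¬ Tr a b c u) {n : ℕ}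
    {x : Fin (n + 1) → V} {w : Fin (n + 1) → CT} (R : Rot T D u n x w) (hur : Re D u)
    (hd : ¬ Re D d) (h : Adj T d u) : ∃ i, w i = q ∧ (u, x i, d) ∈ T ∧ (u, d, x (i + 1)) ∈ T := by
  have cT := hT.pl.disc.cx
  have hul : u ∉ [a, b, c] := by
    intro k
    apply hu
    simpa [Tr] using k
  obtain ⟨_, ⟨y, hy⟩⟩ := inner_dir hT.pl.bd hul h.symm
  -- `(d, u, y)`, so `(u, y, d)`
  have hy' : (u, y, d) ∈ T := cT.rot hy
  have hyr : Re D y := Ts.dummy_nbr hT hd (Or.inr ⟨u, (rot3 cT hy').1⟩)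
  have hya : Ar D u y := hT.re _ _ (Or.inl ⟨d, hy'⟩) hur hyr
  obtain ⟨i, rfl⟩ := (R.nb y).1 hya
  have hc := R.cor i
  by_cases hw : w i = q
  · rw [hw] at hc
    obtain ⟨⟨d', h1, h2, h3⟩, _⟩ := hc
    have e := cT.uniq h2 hy'
    subst e
    exact ⟨i, hw, h2, h3⟩
  · exfalso
    have h1 := hc.ne_mid hw
    have e := cT.uniq h1 hy'
    apply hd
    rw [← e]
    exact (ar_re ((R.nb _).2 ⟨i + 1, rfl⟩)).2

/-- the dummy of a corner -/
theorem dummy_of {u : V} {n : ℕ}
    {x : Fin (n + 1) → V} {w : Fin (n + 1) → CT} (R : Rot T D u n x w) {i : Fin (n + 1)}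
    (hi : w i = q) : ∃ d, ¬ Re D d ∧ (u, x i, d) ∈ T ∧ (u, d, x (i + 1)) ∈ T := by
  have hc := R.cor i
  rw [hi] at hc
  exact hc.1

/-- a dummy at a corner is adjacent to the vertex -/
theorem adj_of_face (cT : IsCx T) {u x d : V} (h : (u, x, d) ∈ T) :
    Adj T d u ∧ Adj T d x ∧ Adj T u x :=
  ⟨Or.inl ⟨x, (rot3 cT h).2⟩, Or.inr ⟨u, (rot3 cT h).1⟩, Or.inl ⟨d, h⟩⟩

theorem Qd.rot {d u o f i : V} (h : Qd T D d u o f i) : Qd T D d o f i u :=
  ⟨h.nr, h.of, h.fi, h.ia, h.ao, fun y => (h.nb y).trans (by tauto)⟩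

/-- every vertex at a dummy is on its quad -/
theorem qd_of (hT : Ts T D a b c) {d u : V} (hd : ¬ Re D d) (h : Adj T d u) :
    ∃ o f i, Qd T D d u o f i := by
  obtain ⟨x1, x2, x3, x4, h1, h2, h3, h4, h5⟩ := hT.du d (adj_vert hT.pl.disc.cx h).1 hd
  have q1 : Qd T D d x1 x2 x3 x4 := ⟨hd, h1, h2, h3, h4, h5⟩
  rcases (h5 u).1 h with rfl | rfl | rfl | rfl
  · exact ⟨_, _, _, q1⟩
  · exact ⟨_, _, _, q1.rot⟩
  · exact ⟨_, _, _, q1.rot.rot⟩
  · exact ⟨_, _, _, q1.rot.rot.rot⟩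

section qd

variable {d u o f i : V}

theorem Qd.not_ac (hT : Ts T D a b c) (h : Qd T D d u o f i) : ¬ Ar D u f := by
  rintro (k | k)
  · exact hT.pl.tri _ _ _ k h.fi h.ia
  · exact hT.pl.tri _ _ _ h.ao h.of k

theorem Qd.not_bd (hT : Ts T D a b c) (h : Qd T D d u o f i) : ¬ Ar D o i := h.rot.not_ac hT

/-- the out-neighbour on the quad is determined -/
theorem Qd.out (hT : Ts T D a b c) (h : Qd T D d u o f i) {y : V} (hy : Adj T d y)
    (hd : D u y) : y = o := by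
  rcases (h.nb y).1 hy with rfl | rfl | rfl | rfl
  · exact absurd hd (hT.pl.asymm _ _ hd)
  · rfl
  · exact absurd (Or.inl hd) (h.not_ac hT)
  · exact absurd hd (hT.pl.asymm _ _ h.ia)

theorem Qd.in' (hT : Ts T D a b c) (h : Qd T D d u o f i) {y : V} (hy : Adj T d y)
    (hd : D y u) : y = i := by
  rcases (h.nb y).1 hy with rfl | rfl | rfl | rfl
  · exact absurd hd (hT.pl.asymm _ _ hd)
  · exact absurd hd (hT.pl.asymm _ _ h.ao)
  · exact absurd (Or.inr hd) (h.not_ac hT)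
  · rfl

theorem Qd.uniq (hT : Ts T D a b c) (h : Qd T D d u o f i) {o' f' i' : V}
    (h' : Qd T D d u o' f' i') : o' = o ∧ f' = f ∧ i' = i := by
  have e1 : o' = o := h.out hT ((h'.nb _).2 (Or.inr (Or.inl rfl))) h'.ao
  have e2 : i' = i := h.in' hT ((h'.nb _).2 (Or.inr (Or.inr (Or.inr rfl)))) h'.ia
  subst e1
  refine ⟨rfl, ?_, e2⟩
  exact h.rot.out hT ((h'.nb _).2 (Or.inr (Or.inr (Or.inl rfl)))) h'.of

/-- the neighbours of `u` on the quad -/
theorem Qd.side (hT : Ts T D a b c) (h : Qd T D d u o f i) {y : V} (hy : Adj T d y)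
    (hd : Ar D u y) : y = o ∨ y = i := by
  rcases hd with hd | hd
  · exact Or.inl (h.out hT hy hd)
  · exact Or.inr (h.in' hT hy hd)

end qd

/-- the faces at an inner vertex are in the region -/
theorem In.face (hR : Reg T X D Z) {u x y : V} (hu : In X D Z u) (h : (u, x, y) ∈ T) :
    (u, x, y) ∈ X := hR.tri_in hu.1 hu.2.2 h

/-- the quad of a dummy at an inner vertex is in the region -/
theorem In.quad (hT : Ts T D a b c) (hR : Reg T X D Z) {u d o f i : V} (hu : In X D Z u)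
    (h : Qd T D d u o f i) {y : V} (hy : Adj T d y) : y ∈ verts X := by
  have cT := hT.pl.disc.cx
  have cX := hR.disc.cx
  have ur : u ∉ verts (T \ X) := fun k => hu.2.2 (hR.sep u hu.1 k)
  have adu : Adj T d u := (h.nb u).2 (Or.inl rfl)
  have dX : d ∈ verts X := by
    rcases (adj_split hR.sub d u).1 adu with k | k
    · exact absurd (adj_vert (sdiff_isCx cT cX) k).2.1 ur
    · exact (adj_vert cX k).1
  have dZ : d ∉ Z := fun k => h.nr (hR.re d k)
  have dr : d ∉ verts (T \ X) := fun k => dZ (hR.sep d dX k)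
  rcases (adj_split hR.sub d y).1 hy with k | k
  · exact absurd (adj_vert (sdiff_isCx cT cX) k).1 dr
  · exact (adj_vert cX k).2.1

theorem face_swap (cT : IsCx T) {x y z : V} (h : Face T x y z) : Face T y x z := by
  rcases h with h | h
  · exact Or.inr (cT.rot h)
  · exact Or.inl (rot3 cT h).2

theorem Nsp.symm (cT : IsCx T) {x y : V} (h : Nsp T D x y) : Nsp T D y x := by
  obtain ⟨z, h1, h2, h3⟩ := h
  exact ⟨z, h1, face_swap cT h2, h3.symm⟩

theorem nsp_sh {x y : V} : Nsp T D x y ↔ Sh T D x y := Iff.rfl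

/-- the two spokes of a quad corner -/
theorem spokes (hT : Ts T D a b c) {u d o f i : V} {n : ℕ} {x : Fin (n + 1) → V}
    {w : Fin (n + 1) → CT} (R : Rot T D u n x w) {j : Fin (n + 1)} (hw : w j = q)
    (h1 : (u, x j, d) ∈ T) (h2 : (u, d, x (j + 1)) ∈ T) (h : Qd T D d u o f i) :
    (x j = o ∧ x (j + 1) = i) ∨ (x j = i ∧ x (j + 1) = o) := by
  have cT := hT.pl.disc.cx
  have a1 : Adj T d (x j) := (adj_of_face cT h1).2.1
  have a2 : Adj T d (x (j + 1)) := Or.inl ⟨u, cT.rot h2⟩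
  have hc := R.cor j
  rw [hw] at hc
  rcases hc.2 with ⟨k1, k2⟩ | ⟨k1, k2⟩
  · exact Or.inr ⟨h.in' hT a1 k1, h.out hT a2 k2⟩
  · exact Or.inl ⟨h.out hT a1 k1, h.in' hT a2 k2⟩

/-- use of `PCok` -/
theorem pcok_use (hT : Ts T D a b c) {u d o f i : V} {n : ℕ} {x : Fin (n + 1) → V}
    {w : Fin (n + 1) → CT} (R : Rot T D u n x w) {j : Fin (n + 1)} (hw : w j = q)
    (h1 : (u, x j, d) ∈ T) (h2 : (u, d, x (j + 1)) ∈ T) (h : Qd T D d u o f i)
    (hP : PCok T X D Z u x j) (ho : In X D Z o) (hf : In X D Z f) (hi : In X D Z i)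
    (n1 : Nsp T D o f) (n2 : Nsp T D f i) : False := by
  have cT := hT.pl.disc.cx
  rcases spokes hT R hw h1 h2 h with ⟨e1, e2⟩ | ⟨e1, e2⟩
  · refine hP f d h.nr ?_ (Or.inl ?_) ?_ hf ?_ ?_ ?_
    · rw [e1, e2]
      exact h.nb
    · rw [e1, e2]
      exact ⟨h.ao, h.of, h.fi, h.ia⟩
    · rw [e1]
      exact ho
    · rw [e2]
      exact hi
    · rw [e1]
      exact n1
    · rw [e2]
      exact n2
  · refine hP f d h.nr ?_ (Or.inr ?_) ?_ hf ?_ ?_ ?_
    · rw [e1, e2]
      intro y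
      rw [h.nb y]
      tauto
    · rw [e1, e2]
      exact ⟨h.ia, h.fi, h.of, h.ao⟩
    · rw [e1]
      exact hi
    · rw [e2]
      exact ho
    · rw [e1]
      exact n2.symm cT
    · rw [e2]
      exact n1.symm cT

/-- the words (started at the quad corner) of the askers -/
def PCA : List (List CT) := [[q, m, q, m, q, m], [q, m, q, q, q, m]]

theorem PCok.of_shift {u : V} {n : ℕ} {x : Fin (n + 1) → V} {i : Fin (n + 1)}
    (h : PCok T X D Z u (fun k => x (i + k)) 0) : PCok T X D Z u x i := by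
  unfold PCok at h ⊢
  simpa only [add_zero, zero_add] using h

/-- **Donors exist.** -/
theorem exists_donor (hT : Ts T D a b c) (hR : Reg T X D Z)
    (hPC : ∀ u, In X D Z u → ∀ (n : ℕ) (x : Fin (n + 1) → V) (w : Fin (n + 1) → CT),
      Rot T D u n x w → List.ofFn w ∈ PCA → PCok T X D Z u x 0)
    {u d : V} (hu : In X D Z u) (hk : Akr T D u d) :
    ∃ b, (In X D Z b ∨ b ∈ Z) ∧ Ask T D Z u d b := by
  have cT := hT.pl.disc.cx
  obtain ⟨hd, x, w, R, hw, h1, h2⟩ := hk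
  have adu : Adj T d u := (adj_of_face cT h1).1
  obtain ⟨o, f, i, hQ⟩ := qd_of hT hd adu
  have inn : ∀ y, Adj T d y → y ∉ Z → In X D Z y := fun y hy hyZ =>
    ⟨In.quad hT hR hu hQ hy, Ts.dummy_nbr hT hd hy, hyZ⟩
  have ado : Adj T d o := (hQ.nb _).2 (Or.inr (Or.inl rfl))
  have adf : Adj T d f := (hQ.nb _).2 (Or.inr (Or.inr (Or.inl rfl)))
  have adi : Adj T d i := (hQ.nb _).2 (Or.inr (Or.inr (Or.inr rfl)))
  by_cases ho : o ∈ Z
  · exact ⟨o, Or.inr ho, o, f, i, hQ, Or.inl ⟨ho, rfl⟩⟩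
  by_cases hi : i ∈ Z
  · exact ⟨i, Or.inr hi, o, f, i, hQ, Or.inr (Or.inl ⟨ho, hi, rfl⟩)⟩
  by_cases hf : f ∈ Z
  · exact ⟨f, Or.inr hf, o, f, i, hQ, Or.inr (Or.inr (Or.inl ⟨ho, hi, hf, rfl⟩))⟩
  have io := inn o ado ho
  have if' := inn f adf hf
  have ii := inn i adi hi
  have key : ¬ (Nsp T D o f ∧ Nsp T D f i) := by
    rintro ⟨n1, n2⟩
    have R' := R.shift 1
    have hPC' := hPC u hu 5 _ _ R' (by
      rcases hw with hw | hw
      · have e : ∀ k : Fin 6, w k = [m, q, m, q, m, q][k.val]'(k.isLt) := by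
          intro k
          have : k.val < (List.ofFn w).length := by simp
          have e := List.getElem_ofFn (f := w) (i := k.val) (by simpa using this)
          simp only [hw] at e
          exact e.symm
        have : List.ofFn (fun i => w (1 + i)) = [q, m, q, m, q, m] := by
          simp only [List.ofFn_succ, e]
          rfl
        rw [this]
        decide
      · have e : ∀ k : Fin 6, w k = [m, q, m, q, q, q][k.val]'(k.isLt) := by
          intro k
          have : k.val < (List.ofFn w).length := by simp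
          have e := List.getElem_ofFn (f := w) (i := k.val) (by simpa using this)
          simp only [hw] at e
          exact e.symm
        have : List.ofFn (fun i => w (1 + i)) = [q, m, q, q, q, m] := by
          simp only [List.ofFn_succ, e]
          rfl
        rw [this]
        decide)
    have hP := PCok.of_shift hPC'
    have hw1 : w 1 = q := by
      have h0 : w 1 = (List.ofFn w)[1]'(by simp) := by rw [List.getElem_ofFn]; rfl
      rcases hw with hw | hw <;> · rw [h0]; simp only [hw]; rfl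
    exact pcok_use hT R hw1 h1 h2 hQ hP io if' ii n1 n2
  by_cases n1 : Nsp T D o f
  · have n2 : ¬ Nsp T D f i := fun h => key ⟨n1, h⟩
    exact ⟨i, Or.inl ii, o, f, i, hQ, Or.inr (Or.inr (Or.inr ⟨ho, hi, hf,
      Or.inr (Or.inr ⟨n1, n2, rfl⟩)⟩))⟩
  · by_cases n2 : Nsp T D f i
    · exact ⟨o, Or.inl io, o, f, i, hQ, Or.inr (Or.inr (Or.inr ⟨ho, hi, hf,
        Or.inr (Or.inl ⟨n1, n2, rfl⟩)⟩))⟩
    · exact ⟨f, Or.inl if', o, f, i, hQ, Or.inr (Or.inr (Or.inr ⟨ho, hi, hf,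
        Or.inl ⟨n1, n2, rfl⟩⟩))⟩

end Pool.Agent.H35.G4
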