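import Pool.Agent.H35.G4.DisF
import Pool.Agent.H80.G4.Deg3

/-!
# Discharging: the local inequality at an inner vertex
-/

set_option autoImplicit false

namespace Pool.Agent.H35.G4

open Relation Pool.Agent.H13.DA Pool.Agent.H72.G4 Pool.Agent.H96.G4 Pool.Agent.H13.G4
open Pool.Agent.H32.G4
open CT

variable {V : Type*} [DecidableEq V] {T X : Finset (V × V × V)} {D : V → V → Prop} {a b c : V}
variable {Z : List V}

/-- the number of corners which count is at most the charge -/
theorem cw_le {v : V} {n : ℕ} {x : Fin (n + 1) → V}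
    {w : Fin (n + 1) → CT} (hT : Ts T D a b c) (h : Rot T D v n x w) :
    cw w ≤ sv T D v + qv T D v := by
  classical
  have h1 := h.count_s hT
  have h2 := h.count_q hT
  have e : Finset.univ.filter (fun i => (w i).ct = true) ⊆
      Finset.univ.filter (fun i => w i = s1 ∨ w i = s2) ∪
        Finset.univ.filter (fun i => w i = q) := by
    intro i hi
    simp only [Finset.mem_filter, Finset.mem_univ, true_and, Finset.mem_union] at hi ⊢
    cases hw : w i
    · exact Or.inr rfl
    · exact Or.inl (Or.inl rfl)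
    · exact Or.inl (Or.inr rfl)
    · rw [hw] at hi; exact absurd hi (by decide)
  have := (Finset.card_le_card e).trans (Finset.card_union_le _ _)
  unfold cw
  omega

/-- the degree is at least four -/
theorem rot_four [Infinite V] (hM : MCw T D a b c) (hT : Ts T D a b c) {v : V}
    (hv : ¬ Tr a b c v) (hvr : Re D v) {n : ℕ} {x : Fin (n + 1) → V}
    {w : Fin (n + 1) → CT} (R : Rot T D v n x w) : 4 ≤ n + 1 := by
  have hF : FanT V := Pool.Agent.H13.G4.fanT
  by_contra hcon
  have hn : n ≤ 2 := by omega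
  interval_cases n
  · exact (Pool.Agent.H80.G4.red_deg3 hF hM hT hv hvr (x := x 0) (y := x 0) (z := x 0)
      (fun u hu => by
      obtain ⟨i, rfl⟩ := (R.nb u).1 hu
      fin_cases i; simp)).elim
  · exact (Pool.Agent.H80.G4.red_deg3 hF hM hT hv hvr (x := x 0) (y := x 1) (z := x 1)
      (fun u hu => by
      obtain ⟨i, rfl⟩ := (R.nb u).1 hu
      fin_cases i <;> simp)).elim
  · exact (Pool.Agent.H80.G4.red_deg3 hF hM hT hv hvr (x := x 0) (y := x 1) (z := x 2)
      (fun u hu => by
      obtain ⟨i, rfl⟩ := (R.nb u).1 hu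
      fin_cases i <;> simp)).elim

open Classical in
/-- **The local inequality at an inner vertex.** -/
theorem loc [Infinite V] (hM : MCw T D a b c) (hT : Ts T D a b c) (hR : Reg T X D Z)
    (hg : ∀ u, In X D Z u → Good T D u)
    (hPC : ∀ u, In X D Z u → ∀ (n : ℕ) (x : Fin (n + 1) → V) (w : Fin (n + 1) → CT),
      Rot T D u n x w → List.ofFn w ∈ PCL → PCok T X D Z u x 0)
    (hRED : ∀ u, In X D Z u → ∀ (n : ℕ) (x : Fin (n + 1) → V) (w : Fin (n + 1) → CT),
      Rot T D u n x w → List.ofFn w ∉ RED)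
    {v : V} (hv : In X D Z v)
    (hB : ∀ (n : ℕ) (x : Fin (n + 1) → V) (w : Fin (n + 1) → CT), Rot T D v n x w →
      ∀ a' d, In X D Z a' → Akr T D a' d → Ask T D Z a' d v → ∃ i, w i = q ∧ (v, x i, d) ∈ T ∧
      (v, d, x (i + 1)) ∈ T ∧ ask (w (i - 1)) (w i) (w (i + 1)) = true ∧ ¬ PCok T X D Z v x i)
    (hU : ∀ a1 a2 d, In X D Z a1 → In X D Z a2 → Akr T D a1 d → Akr T D a2 d →
      Ask T D Z a1 d v → Ask T D Z a2 d v → a1 = a2)
    (hX : ∀ (n : ℕ) (x : Fin (n + 1) → V) (w : Fin (n + 1) → CT), Rot T D v n x w →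
      tb T X D Z v ≤ tR w + tL w) :
    24 + 2 * kb T X D Z v + 3 * tb T X D Z v ≤ 6 * (sv T D v + qv T D v) +
      (if IsW T D v [s2, m, s1, q] then 6 else 0) +
      (if IsW T D v [q, m, q, m, q, m] then 6 else 0) +
      (if IsW T D v [m, q, m, q, q, q] then 2 else 0) := by
  have hvT : ¬ Tr a b c v := hR.inner hT hv.1 hv.2.2
  obtain ⟨n, x, w, R⟩ := exists_rot hT hvT hv.2.1
  have h4 := rot_four hM hT hvT hv.2.1 R
  have h1 := local_ineq w h4 (R.cover hM hT hvT (hg v hv)) (fun i => Dn D v (x i))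
    (fun i => (R.cor i).ch hT) (fun k => hRED v hv n _ _ (R.shift k))
  have h2 := cw_le hT R
  have h3 := kb_le hT hPC hv R (hB n x w R) hU
  have h5 := hX n x w R
  have e1 : (if ∃ k, rt w k = wX1 then 6 else 0) ≤
      (if IsW T D v [s2, m, s1, q] then 6 else 0) := by
    by_cases h : ∃ k, rt w k = wX1
    · rw [if_pos h, if_pos (show IsW T D v [s2, m, s1, q] from isW_of_rt R h)]
    · rw [if_neg h]
      exact Nat.zero_le _
  have e2 : (if ∃ k, rt w k = wZ6 then 6 else 0) ≤
      (if IsW T D v [q, m, q, m, q, m] then 6 else 0) := by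
    by_cases h : ∃ k, rt w k = wZ6
    · rw [if_pos h, if_pos (show IsW T D v [q, m, q, m, q, m] from isW_of_rt R h)]
    · rw [if_neg h]
      exact Nat.zero_le _
  have e3 : (if ∃ k, rt w k = wY6 then 2 else 0) ≤
      (if IsW T D v [m, q, m, q, q, q] then 2 else 0) := by
    by_cases h : ∃ k, rt w k = wY6
    · rw [if_pos h, if_pos (show IsW T D v [m, q, m, q, q, q] from isW_of_rt R h)]
    · rw [if_neg h]
      exact Nat.zero_le _
  omega

end Pool.Agent.H35.G4
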