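import Pool.Agent.H72.G4.WordsB

/-!
# Discharging: the local inequality on words, the table
-/

set_option autoImplicit false

namespace Pool.Agent.H35.G4

open Pool.Agent.H72.G4 CT

/-- equality test for corner types -/
def ceq : CT → CT → Bool
  | q, q => true
  | s1, s1 => true
  | s2, s2 => true
  | m, m => true
  | _, _ => false

theorem ceq_iff {x y : CT} : ceq x y = true ↔ x = y := by
  cases x <;> cases y <;> simp [ceq]

/-- equality test for words -/
def leq : List CT → List CT → Bool
  | [], [] => true
  | x :: l, y :: l' => ceq x y && leq l l'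
  | _, _ => false

theorem leq_iff : ∀ {l l' : List CT}, leq l l' = true ↔ l = l'
  | [], [] => by simp [leq]
  | [], y :: l' => by simp [leq]
  | x :: l, [] => by simp [leq]
  | x :: l, y :: l' => by
    rw [leq, Bool.and_eq_true, ceq_iff, leq_iff, List.cons.injEq]

/-- candidates: a quad corner `y` between the corners `x` and `z` which can be asked -/
def ask (x y z : CT) : Bool :=
  ceq y q && ((x.cr && z.cl) || (ceq x s1 && z.cl) || (ceq z s2 && x.cr))

/-- X1 request, right form -/
def rqR (x y z : CT) : Bool := ceq x s2 && ceq y s2 && z.cl

/-- X1 request, left form -/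
def rqL (x y z : CT) : Bool := x.cr && ceq y s1 && ceq z s1

/-- number of `i < k` with `p i` -/
def cN (p : ℕ → Bool) : ℕ → ℕ
  | 0 => 0
  | k + 1 => cN p k + (p k).toNat

/-- the cyclic word -/
def W (l : List CT) (i : ℕ) : CT := l.getD (i % l.length) q

/-- the word started at `i` -/
def rot (l : List CT) (i : ℕ) : List CT := (List.range l.length).map (fun k => W l (i + k))

/-- membership test -/
def inl (L : List (List CT)) (l : List CT) : Bool := L.any (fun p => leq p l)

theorem inl_iff {L : List (List CT)} {l : List CT} : inl L l = true ↔ l ∈ L := by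
  unfold inl
  rw [List.any_eq_true]
  constructor
  · rintro ⟨p, hp, h⟩
    rw [leq_iff] at h
    rwa [← h]
  · intro h
    exact ⟨l, h, leq_iff.2 rfl⟩

/-- the words, started at the quad corner, where the quad is reducible by path contraction -/
def PCL : List (List CT) :=
  [[q, s2, q, s2], [q, s1, q, s1], [q, s1, q, s2], [q, q, q, q],
   [q, q, m, q, s2], [q, s1, q, m, q],
   [q, s2, q, m, q], [q, q, m, q, s1],
   [q, q, s2, m, q], [q, q, m, s1, q],
   [q, s2, m, q, q], [q, q, q, m, s1],
   [q, s2, q, q, q], [q, q, q, q, s1],
   [q, s2, s2, s2, q], [q, q, s1, s1, s1],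
   [q, s2, s2, q, s2], [q, s1, q, s1, s1],
   [q, s2, s2, s1, q], [q, q, s2, s1, s1]]

/-- the reducible words -/
def RED : List (List CT) :=
  [[m, s1, s1, q], [q, s2, s2, m], [q, q, m, q], [m, q, m, q], [m, q, m, s1, q],
   [q, s2, m, q, m], [s2, s2, q, q], [s1, s1, q, q], [s2, s1, q, q]]

def wX1 : List CT := [s2, m, s1, q]
def wZ6 : List CT := [q, m, q, m, q, m]
def wY6 : List CT := [m, q, m, q, q, q]

/-- the number of asked corners which are not reducible by path contraction -/
def kN (l : List CT) : ℕ :=
  cN (fun i => ask (W l (i + (l.length - 1))) (W l i) (W l (i + 1)) && !(inl PCL (rot l i))) l.length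

/-- the numbers of possible requests -/
def tRN (l : List CT) : ℕ := cN (fun i => rqR (W l i) (W l (i + 1)) (W l (i + 2))) l.length

def tLN (l : List CT) : ℕ :=
  cN (fun i => rqL (W l (i + (l.length - 1))) (W l i) (W l (i + 1))) l.length

/-- `p` is a rotation of `l` -/
def isr (p l : List CT) : Bool := (List.range l.length).any (fun i => leq (rot l i) p)

/-- cyclic coverage -/
def ccov (l : List CT) : Bool :=
  (List.range l.length).all (fun i => cov (W l i) (W l (i + 1)))

/-- the local inequality -/
def ineq (l : List CT) : Bool :=
  Nat.ble (24 + 2 * kN l + 3 * (tRN l + tLN l))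
    (6 * cnt l + 6 * (isr wX1 l).toNat + 6 * (isr wZ6 l).toNat + 2 * (isr wY6 l).toNat)

/-- the statement checked for every word -/
def P (l : List CT) : Bool :=
  !(ccov l) || par l || RED.any (fun p => isr p l) || ineq l

/-- can `t` be put in front of `l` -/
def okc (t : CT) : List CT → Bool
  | [] => true
  | u :: l => cov t u && Nat.ble (cnt (t :: u :: l)) 5

/-- all words of length `k` with consecutive coverage and at most five counting corners -/
def gen : ℕ → List (List CT)
  | 0 => [[]]
  | k + 1 => (gen k).flatMap fun l => [q, s1, s2, m].flatMap fun t =>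
      bif okc t l then [t :: l] else []

/-- consecutive coverage -/
def Chn : List CT → Prop
  | [] => True
  | [_] => True
  | x :: y :: l => cov x y = true ∧ Chn (y :: l)

theorem cnt_cons (t : CT) (l : List CT) : cnt (t :: l) = cnt l + t.ct.toNat := by
  unfold cnt
  cases h : t.ct <;> simp [h]

theorem mem_gen : ∀ l : List CT, Chn l → cnt l ≤ 5 → l ∈ gen l.length
  | [], _, _ => by simp [gen]
  | t :: l, h1, h2 => by
    have h3 : Chn l := by
      cases l with
      | nil => trivial
      | cons u l => exact h1.2
    have h4 : cnt l ≤ 5 := by
      rw [cnt_cons] at h2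
      omega
    have ih := mem_gen l h3 h4
    rw [List.length_cons, gen, List.mem_flatMap]
    refine ⟨l, ih, ?_⟩
    rw [List.mem_flatMap]
    refine ⟨t, by cases t <;> simp, ?_⟩
    have ok : okc t l = true := by
      cases l with
      | nil => rfl
      | cons u l =>
        rw [okc, Bool.and_eq_true]
        exact ⟨h1.1, by rw [Nat.ble_eq]; exact h2⟩
    rw [ok]
    simp

theorem table4 : (gen 4).all P = true := by decide +kernel
theorem table5 : (gen 5).all P = true := by decide +kernel
theorem table6 : (gen 6).all P = true := by decide +kernel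
theorem table7 : (gen 7).all P = true := by decide +kernel
theorem table8 : (gen 8).all P = true := by decide +kernel
theorem table9 : (gen 9).all P = true := by decide +kernel
theorem table10 : (gen 10).all P = true := by decide +kernel

/-- **the table**: words of length `4` to `10` with at most five counting corners -/
theorem table {l : List CT} (h1 : Chn l) (h2 : cnt l ≤ 5) (h3 : 4 ≤ l.length)
    (h4 : l.length ≤ 10) : P l = true := by
  have h := mem_gen l h1 h2
  obtain ⟨k, hk⟩ : ∃ k, l.length = k := ⟨_, rfl⟩
  rw [hk] at h h3 h4
  have key : (gen k).all P = true := by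
    interval_cases k
    · exact table4
    · exact table5
    · exact table6
    · exact table7
    · exact table8
    · exact table9
    · exact table10
  exact List.all_eq_true.1 key l h

end Pool.Agent.H35.G4
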